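import Mathlib

namespace Pool.Agent.Results.MP_81a4f1_co.NoHamPath

open SimpleGraph

/-- The local independence number of `v`. -/
noncomputable def locInd {n : ℕ} (G : SimpleGraph (Fin n)) (v : Fin n) : ℕ :=
  (G.induce (G.neighborSet v)).indepNum

/-- The maximum local independence number. -/
noncomputable def lamMax {n : ℕ} (G : SimpleGraph (Fin n)) : ℕ :=
  Finset.univ.sup (locInd G)

/-- The number of vertices attaining the maximum local independence number. -/
noncomputable def freq {n : ℕ} (G : SimpleGraph (Fin n)) : ℕ :=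
  (Finset.univ.filter fun v => locInd G v = lamMax G).card

/-- `0, 1` are leaves at `2`; `3, …, 10` span `K₈` minus the edge `9 10`; `2` is joined to
`3, …, 8`. -/
def adj (u v : Fin 11) : Bool :=
  u != v && (if u.val < 2 then v.val == 2 else if v.val < 2 then u.val == 2 else
    !(u.val == 2 && 9 ≤ v.val) && !(v.val == 2 && 9 ≤ u.val) && !(9 ≤ u.val && 9 ≤ v.val))

def G0 : SimpleGraph (Fin 11) where
  Adj u v := adj u v = true
  symm := ⟨by decide +kernel⟩
  loopless := ⟨by decide +kernel⟩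

instance : DecidableRel G0.Adj := fun u v => inferInstanceAs (Decidable (adj u v = true))

theorem conn : G0.Connected := by
  have key : ∀ v : Fin 11, v = 3 ∨ G0.Adj 3 v ∨ ∃ w, G0.Adj 3 w ∧ G0.Adj w v := by decide +kernel
  have h : ∀ v, G0.Reachable 3 v := by
    intro v
    rcases key v with rfl | h | ⟨w, h1, h2⟩
    · rfl
    · exact h.reachable
    · exact h1.reachable.trans h2.reachable
  exact ⟨fun u v => (h u).symm.trans (h v)⟩

theorem loc_le (v : Fin 11) : locInd G0 v ≤ 3 := by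
  classical
  have key : ∀ v a : Fin 11, G0.Adj v a → ∀ b, G0.Adj v b → a ≠ b → ¬ G0.Adj a b →
      ∀ c, G0.Adj v c → a ≠ c → ¬ G0.Adj a c → b ≠ c → ¬ G0.Adj b c →
      ∀ d, G0.Adj v d → a ≠ d → ¬ G0.Adj a d → b ≠ d → ¬ G0.Adj b d → c ≠ d → G0.Adj c d := by
    set_option synthInstance.maxSize 4000 in decide +kernel
  obtain ⟨s, hs⟩ := (G0.induce (G0.neighborSet v)).exists_isNIndepSet_indepNum
  unfold locInd
  rw [← hs.card_eq]
  by_contra hc
  obtain ⟨t, hts, ht⟩ := Finset.exists_subset_card_eq (s := s) (n := 4) (by omega)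
  obtain ⟨a, b, c, d, hab, hac, had, hbc, hbd, hcd, rfl⟩ := Finset.card_eq_four.1 ht
  have I := hs.isIndepSet
  have ha : a ∈ (s : Set _) := hts (by simp)
  have hb : b ∈ (s : Set _) := hts (by simp)
  have hc' : c ∈ (s : Set _) := hts (by simp)
  have hd : d ∈ (s : Set _) := hts (by simp)
  exact I hc' hd hcd (key v a a.2 b b.2 (Subtype.coe_ne_coe.2 hab) (I ha hb hab) c c.2
    (Subtype.coe_ne_coe.2 hac) (I ha hc' hac) (Subtype.coe_ne_coe.2 hbc) (I hb hc' hbc) d d.2
    (Subtype.coe_ne_coe.2 had) (I ha hd had) (Subtype.coe_ne_coe.2 hbd) (I hb hd hbd)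
    (Subtype.coe_ne_coe.2 hcd))

theorem loc_ge (v : Fin 11) (h1 : 2 ≤ v.val) (h2 : v.val ≤ 8) : 3 ≤ locInd G0 v := by
  classical
  have key : ∀ v : Fin 11, 2 ≤ v.val → v.val ≤ 8 → ∃ a b c : Fin 11, G0.Adj v a ∧ G0.Adj v b ∧
      G0.Adj v c ∧ a ≠ b ∧ a ≠ c ∧ b ≠ c ∧ ¬ G0.Adj a b ∧ ¬ G0.Adj a c ∧ ¬ G0.Adj b c := by
    set_option synthInstance.maxSize 4000 in decide +kernel
  obtain ⟨a, b, c, ha, hb, hc, hab, hac, hbc, nab, nac, nbc⟩ := key v h1 h2
  have hI : (G0.induce (G0.neighborSet v)).IsIndepSet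
      (({⟨a, ha⟩, ⟨b, hb⟩, ⟨c, hc⟩} : Finset (G0.neighborSet v)) : Set _) := by
    intro x hx y hy hxy
    simp only [Finset.coe_insert, Finset.coe_singleton, Set.mem_insert_iff,
      Set.mem_singleton_iff] at hx hy
    rcases hx with rfl | rfl | rfl <;> rcases hy with rfl | rfl | rfl <;>
      first
        | exact absurd rfl hxy
        | assumption
        | exact fun h => nab (G0.adj_symm h)
        | exact fun h => nac (G0.adj_symm h)
        | exact fun h => nbc (G0.adj_symm h)
  have := hI.card_le_indepNum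
  rw [Finset.card_eq_three.2 ⟨_, _, _, by simpa using hab, by simpa using hac,
    by simpa using hbc, rfl⟩] at this
  exact this

theorem lam : lamMax G0 = 3 :=
  le_antisymm (Finset.sup_le fun v _ => loc_le v)
    ((loc_ge 2 (by decide) (by decide)).trans (Finset.le_sup (Finset.mem_univ _)))

theorem freq_ge : 7 ≤ freq G0 := by
  have : (Finset.univ.filter fun v : Fin 11 => 2 ≤ v.val ∧ v.val ≤ 8).card = 7 := by decide
  rw [← this]
  apply Finset.card_le_card
  intro v hv
  simp only [Finset.mem_filter, Finset.mem_univ, true_and] at hv ⊢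
  rw [lam]
  exact le_antisymm (loc_le v) (loc_ge v hv.1 hv.2)

theorem compl_edges : G0ᶜ.edgeSet.ncard = 20 := by
  rw [← coe_edgeFinset, Set.ncard_coe_finset]
  have := G0ᶜ.sum_degrees_eq_twice_card_edges
  have h2 : ∑ v, G0ᶜ.degree v = 40 := by decide +kernel
  omega

theorem noham (u v : Fin 11) (p : G0.Walk u v) : ¬ p.IsHamiltonian := by
  intro h
  have hl : p.length = 10 := by simpa using h.length_eq
  have hinj := h.isPath.getVert_injOn
  have leaf : ∀ a x : Fin 11, a.val < 2 → G0.Adj a x → x = 2 := by decide +kernel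
  have pos : ∀ a : Fin 11, a.val < 2 → p.getVert 0 = a ∨ p.getVert 10 = a := by
    intro a ha
    obtain ⟨i, hi, hle⟩ := Walk.mem_support_iff_exists_getVert.1 (h.mem_support a)
    by_contra hne
    push Not at hne
    have h0 : i ≠ 0 := fun e => hne.1 (e ▸ hi)
    have h10 : i ≠ 10 := fun e => hne.2 (e ▸ hi)
    obtain ⟨j, rfl⟩ : ∃ j, i = j + 1 := ⟨i - 1, by omega⟩
    have e1 := leaf a _ ha (hi ▸ (p.adj_getVert_succ (i := j) (by omega)).symm)
    have e2 := leaf a _ ha (hi ▸ p.adj_getVert_succ (i := j + 1) (by omega))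
    have := hinj (x₁ := j) (by simp; omega) (x₂ := j + 1 + 1) (by simp; omega) (e1.trans e2.symm)
    omega
  have a0 := p.adj_getVert_succ (i := 0) (by omega)
  have a9 := (p.adj_getVert_succ (i := 9) (by omega)).symm
  have fin : (p.getVert 0).val < 2 → (p.getVert 10).val < 2 → False := by
    intro h1 h2
    have := hinj (x₁ := 1) (by simp; omega) (x₂ := 9) (by simp; omega)
      ((leaf _ _ h1 a0).trans (leaf _ _ h2 a9).symm)
    omega
  rcases pos 0 (by decide) with h1 | h1 <;> rcases pos 1 (by decide) with h2 | h2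
  · exact absurd (h1.symm.trans h2) (by decide)
  · exact fin (by rw [h1]; decide) (by rw [h2]; decide)
  · exact fin (by rw [h2]; decide) (by rw [h1]; decide)
  · exact absurd (h1.symm.trans h2) (by decide)

theorem result : ∃ (n : ℕ) (G : SimpleGraph (Fin n)), 1 < n ∧ G.Connected ∧
    (1 / 6 : ℚ) * (1 + 2 * (Gᶜ.edgeSet.ncard : ℚ)) ≤ (freq G : ℚ) ∧
    ¬ ∃ (u v : Fin n) (p : G.Walk u v), p.IsHamiltonian := by
  refine ⟨11, G0, by norm_num, conn, ?_, fun ⟨u, v, p, h⟩ => noham u v p h⟩
  have : (7 : ℚ) ≤ freq G0 := by exact_mod_cast freq_ge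
  rw [compl_edges]
  push_cast
  linarith

end Pool.Agent.Results.MP_81a4f1_co.NoHamPath
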